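import Pool.Agent.Helper73.F2.St

set_option autoImplicit false

/-! Project F2, module CNT: double counting -/

namespace Pool.Agent.Helper36.F2

open _root_.F2 Finset

theorem hCNT : StCNT := by
  classical
  intro V κ _ _ _ _ G b X P S i₀ hF hG hP hi₀S hi₀P h2 hcl huniq
  by_contra hcon
  push Not at hcon
  set XS : Finset V := X.filter (fun x => b x ∈ S) with hXS
  set Nb : V → Finset V := fun x => univ.filter (fun v => Allow G b X P x v) with hNb
  set A : V → Finset V := fun x => univ.filter (fun a => Mate b X P a ∧ G.Reachable x a) with hA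
  set W : Finset V := univ.filter (fun z => b z ∈ S ∧ (z ∈ X ∨ ∃ x ∈ XS, Allow G b X P x z)) with hW
  set M : Finset V := univ.filter (fun a => Mate b X P a ∧ b a ∈ S) with hM
  have memXS : ∀ x, x ∈ XS ↔ x ∈ X ∧ b x ∈ S := by intro x; simp [hXS]
  have memN : ∀ x v, v ∈ Nb x ↔ Allow G b X P x v := by intro x v; simp [hNb]
  have memA : ∀ x a, a ∈ A x ↔ Mate b X P a ∧ G.Reachable x a := by intro x a; simp [hA]
  have memW : ∀ z, z ∈ W ↔ b z ∈ S ∧ (z ∈ X ∨ ∃ x ∈ XS, Allow G b X P x z) := by
    intro z; simp [hW]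
  have memM : ∀ a, a ∈ M ↔ Mate b X P a ∧ b a ∈ S := by intro a; simp [hM]
  -- a mate in the component of `x` is allowed
  have hAN : ∀ x ∈ XS, ∀ a ∈ A x, a ∈ Nb x := by
    intro x hx a ha
    rw [memXS] at hx
    rw [memA] at ha
    rw [memN]
    obtain ⟨w, hwX, haw⟩ := hP.near a ha.1
    have hw : w = x := (huniq x hx.1 hx.2).2 w hwX (ha.2.trans haw.reachable)
    subst hw
    exact ⟨hx.1, haw.symm, fun a' ha' hr => hP.sep a' a ha' ha.1 (hr.symm.trans ha.2)⟩
  have h3 : ∀ x ∈ XS, 3 ≤ 1 + (Nb x).card + (A x).card := by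
    intro x hx
    have hx' := (memXS x).1 hx
    by_cases hAe : A x = ∅
    · obtain ⟨p, q, hpq, hxp, hxq⟩ := (huniq x hx'.1 hx'.2).1 x (SimpleGraph.Reachable.refl x)
      have hsub : ({p, q} : Finset V) ⊆ Nb x := by
        intro t ht
        rw [Finset.mem_insert, Finset.mem_singleton] at ht
        rw [memN]
        refine ⟨hx'.1, ?_, ?_⟩
        · rcases ht with h | h
          · rw [h]; exact hxp
          · rw [h]; exact hxq
        · intro a ha hr
          exfalso
          have : a ∈ A x := (memA x a).2 ⟨ha, hr⟩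
          rw [hAe] at this
          exact Finset.notMem_empty _ this
      have := Finset.card_le_card hsub
      rw [Finset.card_pair hpq] at this
      omega
    · obtain ⟨a, ha⟩ := Finset.nonempty_iff_ne_empty.2 hAe
      have e1 : 0 < (A x).card := Finset.card_pos.2 ⟨a, ha⟩
      have e2 : 0 < (Nb x).card := Finset.card_pos.2 ⟨a, hAN x hx a ha⟩
      omega
  have hreach : ∀ x, ∀ t ∈ insert x (Nb x), G.Reachable x t := by
    intro x t ht
    rw [Finset.mem_insert, memN] at ht
    rcases ht with h | h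
    · rw [h]
    · exact h.2.1.reachable
  have hsame : ∀ x ∈ XS, ∀ x' ∈ XS, ∀ t, G.Reachable x t → G.Reachable x' t → x = x' := by
    intro x hx x' hx' t h1 h2
    rw [memXS] at hx hx'
    exact ((huniq x hx.1 hx.2).2 x' hx'.1 (h1.trans h2.symm)).symm
  have hW1 : (XS.biUnion (fun x => insert x (Nb x))).card = ∑ x ∈ XS, (1 + (Nb x).card) := by
    rw [Finset.card_biUnion]
    · apply Finset.sum_congr rfl
      intro x _
      rw [Finset.card_insert_of_notMem, add_comm]
      rw [memN]
      intro h
      exact G.loopless.irrefl _ h.2.1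
    · intro x hx x' hx' hne
      change Disjoint (insert x (Nb x)) (insert x' (Nb x'))
      rw [Finset.disjoint_left]
      intro t ht ht'
      exact hne (hsame x hx x' hx' t (hreach x t ht) (hreach x' t ht'))
  have hW2 : (XS.biUnion (fun x => insert x (Nb x))).card ≤ W.card := by
    apply Finset.card_le_card
    intro t ht
    rw [Finset.mem_biUnion] at ht
    obtain ⟨x, hx, ht⟩ := ht
    have hx' := (memXS x).1 hx
    rw [Finset.mem_insert, memN] at ht
    rw [memW]
    rcases ht with h | h
    · rw [h]; exact ⟨hx'.2, Or.inl hx'.1⟩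
    · exact ⟨hcl x hx'.1 hx'.2 t h, Or.inr ⟨x, hx, h⟩⟩
  have hA1 : (XS.biUnion A).card = ∑ x ∈ XS, (A x).card := by
    rw [Finset.card_biUnion]
    intro x hx x' hx' hne
    change Disjoint (A x) (A x')
    rw [Finset.disjoint_left]
    intro t ht ht'
    rw [memA] at ht ht'
    exact hne (hsame x hx x' hx' t ht.2 ht'.2)
  have hA2 : (XS.biUnion A).card ≤ M.card := by
    apply Finset.card_le_card
    intro t ht
    rw [Finset.mem_biUnion] at ht
    obtain ⟨x, hx, ht⟩ := ht
    have hx' := (memXS x).1 hx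
    rw [memM]
    exact ⟨((memA x t).1 ht).1, hcl x hx'.1 hx'.2 t ((memN x t).1 (hAN x hx t ht))⟩
  have hmain : 3 * XS.card ≤ W.card + M.card := by
    have e1 : ∑ x ∈ XS, 3 ≤ ∑ x ∈ XS, (1 + (Nb x).card + (A x).card) := Finset.sum_le_sum h3
    rw [Finset.sum_add_distrib, Finset.sum_const, smul_eq_mul] at e1
    omega
  -- fibres
  have f1 : XS.card = ∑ i ∈ S, mul b X i := by
    rw [Finset.card_eq_sum_card_fiberwise (f := b) (t := S)
      (fun x hx => ((memXS x).1 hx).2)]
    apply Finset.sum_congr rfl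
    intro i hi
    unfold mul
    congr 1
    ext x
    constructor
    · intro h
      obtain ⟨h, h'⟩ := Finset.mem_filter.1 h
      exact Finset.mem_filter.2 ⟨((memXS x).1 h).1, h'⟩
    · intro h
      obtain ⟨h, h'⟩ := Finset.mem_filter.1 h
      exact Finset.mem_filter.2 ⟨(memXS x).2 ⟨h, by rw [h']; exact hi⟩, h'⟩
  have f2 : W.card = ∑ i ∈ S, (W.filter (fun z => b z = i)).card :=
    Finset.card_eq_sum_card_fiberwise (f := b) (t := S) (fun x hx => ((memW x).1 hx).1)
  have f3 : M.card = ∑ i ∈ S, (M.filter (fun z => b z = i)).card :=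
    Finset.card_eq_sum_card_fiberwise (f := b) (t := S) (fun x hx => ((memM x).1 hx).2)
  have g1 : ∀ i, (W.filter (fun z => b z = i)).card ≤ 4 := by
    intro i
    rw [← hF i]
    apply Finset.card_le_card
    intro z hz
    rw [Finset.mem_filter] at hz ⊢
    exact ⟨Finset.mem_univ _, hz.2⟩
  have g2 : ∀ i, i ∉ P → (M.filter (fun z => b z = i)).card = 0 := by
    intro i hi
    rw [Finset.card_eq_zero, Finset.filter_eq_empty_iff]
    intro z hz hzi
    rw [memM] at hz
    apply hi
    rw [← hzi]
    exact hz.1.1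
  have g3 : ∀ i ∈ P, (M.filter (fun z => b z = i)).card ≤ 2 := by
    intro i hi
    have e1 : M.filter (fun z => b z = i) ⊆
        (univ.filter (fun v => b v = i)) \ (X.filter (fun x => b x = i)) := by
      intro z hz
      rw [Finset.mem_filter, memM] at hz
      rw [Finset.mem_sdiff, Finset.mem_filter, Finset.mem_filter]
      exact ⟨⟨Finset.mem_univ _, hz.2⟩, fun h => hz.1.1.2 h.1⟩
    have e2 := Finset.card_le_card e1
    rw [Finset.card_sdiff_of_subset (Finset.filter_subset_filter _ (Finset.subset_univ X)),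
      hF i] at e2
    have e3 := hP.two i hi
    unfold mul at e3
    omega
  have g4 : ∀ i, 1 ≤ mul b X i := by
    intro i
    obtain ⟨x, hx, hxi⟩ := hG.hit i
    exact Finset.card_pos.2 ⟨x, Finset.mem_filter.2 ⟨hx, hxi⟩⟩
  have g5 : ∀ i ∈ S, i ∉ P → mul b X i = 1 → (W.filter (fun z => b z = i)).card ≤ 3 := by
    intro i hiS hiP hi1
    obtain ⟨z, hz, hzX, hzA⟩ := hcon i hiS hiP hi1
    have e1 : W.filter (fun z => b z = i) ⊆ (univ.filter (fun v => b v = i)).erase z := by
      intro t ht
      rw [Finset.mem_filter, memW] at ht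
      rw [Finset.mem_erase, Finset.mem_filter]
      refine ⟨?_, Finset.mem_univ _, ht.2⟩
      rintro rfl
      rcases ht.1.2 with h | ⟨x, hx, h⟩
      · exact hzX h
      · have hx' := (memXS x).1 hx
        exact hzA x hx'.1 hx'.2 h
    have e2 := Finset.card_le_card e1
    have e3 : z ∈ univ.filter (fun v => b v = i) := Finset.mem_filter.2 ⟨Finset.mem_univ _, hz⟩
    rw [Finset.card_erase_of_mem e3, hF i] at e2
    exact e2
  have g6 : ∑ i ∈ S, ((W.filter (fun z => b z = i)).card + (M.filter (fun z => b z = i)).card) <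
      ∑ i ∈ S, 3 * mul b X i := by
    apply Finset.sum_lt_sum
    · intro i hi
      have a1 := g1 i
      have a4 := g4 i
      by_cases hiP : i ∈ P
      · have a3 := g3 i hiP
        have a5 := hP.two i hiP
        omega
      · have a2 := g2 i hiP
        by_cases h1 : mul b X i = 1
        · have a5 := g5 i hi hiP h1
          omega
        · omega
    · refine ⟨i₀, hi₀S, ?_⟩
      have a1 := g1 i₀
      have a2 := g2 i₀ hi₀P
      omega
  rw [Finset.sum_add_distrib, ← f2, ← f3, ← Finset.mul_sum, ← f1] at g6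
  omega

end Pool.Agent.Helper36.F2
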