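import Pool.Agent.Helper73.F2.St

set_option autoImplicit false

/-! Project F2, module FSC: the colouring outside `X` and the protected blocks -/

namespace Pool.Agent.Helper36.F2

open _root_.F2 Finset

theorem hFSC : StFSC := by
  classical
  intro hATT hHDG hLEF hFSG V κ _ _ _ _ G b X P hD hF hT hG hP hm
  set S : Finset V := univ.filter (fun v => Star b X P v) with hS
  have memS : ∀ v, v ∈ S ↔ Star b X P v := by intro v; simp [hS]
  set Q : Finset κ := univ.filter (fun i => i ∉ P) with hQ
  have memQ : ∀ i, i ∈ Q ↔ i ∉ P := by intro i; simp [hQ]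
  have h3 : ∀ i ∈ Q, (S.filter (fun v => b v = i)).card = 3 := by
    intro i hi
    rw [memQ] at hi
    have e1 : S.filter (fun v => b v = i) =
        (univ.filter (fun v => b v = i)) \ (X.filter (fun x => b x = i)) := by
      ext t
      constructor
      · intro h
        obtain ⟨h, h'⟩ := Finset.mem_filter.1 h
        rw [memS] at h
        exact Finset.mem_sdiff.2 ⟨Finset.mem_filter.2 ⟨Finset.mem_univ _, h'⟩,
          fun h2 => h.1 (Finset.mem_filter.1 h2).1⟩
      · intro h
        obtain ⟨h, h'⟩ := Finset.mem_sdiff.1 h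
        have hb : b t = i := (Finset.mem_filter.1 h).2
        refine Finset.mem_filter.2 ⟨(memS t).2 ⟨fun h2 => h' (Finset.mem_filter.2 ⟨h2, hb⟩), ?_⟩, hb⟩
        rw [hb]; exact hi
    rw [e1, Finset.card_sdiff_of_subset (Finset.filter_subset_filter _ (Finset.subset_univ X)),
      hF i]
    have e2 := hm i hi
    unfold mul at e2
    omega
  obtain ⟨f, hf1, hf2⟩ := hFSG V κ (HS G b X P) b S Q (hHDG hATT V κ G b X P hD hF hP)
    (hLEF hATT V κ G b X P hD hF hG hP) h3
  refine ⟨f, ?_, ?_, ?_⟩
  · intro u v hu hv huv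
    exact hf1 u ((memS u).2 hu) v ((memS v).2 hv) ⟨huv.ne, hu, hv, v, huv, Or.inl rfl⟩
  · intro u v hu hv hb hf
    exact hf2 u ((memS u).2 hu) v ((memS v).2 hv) hb ((memQ _).2 hu.2) hf
  · intro a a' u v ha ha' hne hb hu hv hau hav
    have huv : u ≠ v := by
      rintro rfl
      exact hne (hT.2 u a a' hau.symm hav.symm hb)
    exact hf1 u ((memS u).2 hu) v ((memS v).2 hv)
      ⟨huv, hu, hv, a, hau.symm, Or.inr ⟨ha, a', ha', hne.symm, hb.symm, hav⟩⟩

end Pool.Agent.Helper36.F2
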