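import Pool.Agent.Helper73.F2.St
import Pool.Agent.Helper95.SC.Order
import Pool.Agent.Helper95.SC.Parity3

set_option autoImplicit false

/-! Project F2, module FSG: the three colours -/

namespace Pool.Agent.Helper36.F2

open _root_.F2 Finset SC

section
variable {V : Type*} [Fintype V] [DecidableEq V]

theorem order' (H : SimpleGraph V)
    (hL : ∀ Θ : Finset V, Θ.Nonempty → ∃ x ∈ Θ, ∀ y ∈ Θ, ∀ z ∈ Θ, H.Adj x y → H.Adj x z → y = z)
    (hdeg : ∀ x a b c, H.Adj x a → H.Adj x b → H.Adj x c → a = b ∨ a = c ∨ b = c) :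
    ∀ (n : ℕ) (S : Finset V), S.card = n → ∃ l : List V, l.Nodup ∧ (∀ x, x ∈ l ↔ x ∈ S) ∧
      ∀ u ∈ S, ∀ v ∈ S, H.Adj u v → Cons2 l u v ∨ Cons2 l v u := by
  intro n
  induction n with
  | zero =>
    intro S hS
    rw [Finset.card_eq_zero] at hS
    subst hS
    exact ⟨[], List.nodup_nil, by simp, by simp⟩
  | succ n ih =>
    intro S hS
    have hne : S.Nonempty := by
      rw [← Finset.card_pos]
      omega
    obtain ⟨x, hx, hleaf⟩ := hL S hne
    obtain ⟨l, h1, h2, h3⟩ := ih (S.erase x) (by rw [Finset.card_erase_of_mem hx]; omega)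
    have hxl : x ∉ l := by
      rw [h2]
      simp
    have hmem : ∀ pre post : List V, pre ++ post = l → ∀ z, z ∈ pre ++ x :: post ↔ z ∈ S := by
      intro pre post hpp z
      have : (pre ++ x :: post).Perm (x :: (pre ++ post)) := List.perm_middle
      rw [this.mem_iff, List.mem_cons, hpp, h2, Finset.mem_erase]
      constructor
      · rintro (h | h)
        · rw [h]; exact hx
        · exact h.2
      · intro h
        by_cases hz : z = x
        · exact Or.inl hz
        · exact Or.inr ⟨hz, h⟩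
    by_cases hy : ∃ y ∈ S, H.Adj x y
    · obtain ⟨y, hyS, hxy⟩ := hy
      have hyx : y ≠ x := hxy.ne'
      have hyl : y ∈ l := by
        rw [h2]
        exact Finset.mem_erase.2 ⟨hyx, hyS⟩
      -- the general step
      have step : ∀ (l' : List V), (∀ u v, u ≠ y → v ≠ y → Cons2 l u v → Cons2 l' u v) →
          (Cons2 l' x y ∨ Cons2 l' y x) →
          (∀ z, z ≠ x → z ∈ S → H.Adj y z → Cons2 l' y z ∨ Cons2 l' z y) →
          ∀ u ∈ S, ∀ v ∈ S, H.Adj u v → Cons2 l' u v ∨ Cons2 l' v u := by
        intro l' k1 k2 k3 u hu v hv huv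
        by_cases hux : u = x
        · have : v = y := hleaf v hv y hyS (hux ▸ huv) hxy
          rw [hux, this]
          exact k2
        · by_cases hvx : v = x
          · have : u = y := hleaf u hu y hyS (hvx ▸ huv.symm) hxy
            rw [hvx, this]
            exact k2.symm
          · by_cases huy : u = y
            · rw [huy]
              exact k3 v hvx hv (huy ▸ huv)
            · by_cases hvy : v = y
              · rw [hvy]
                exact (k3 u hux hu (hvy ▸ huv.symm)).symm
              · rcases h3 u (Finset.mem_erase.2 ⟨hux, hu⟩) v (Finset.mem_erase.2 ⟨hvx, hv⟩) huv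
                  with h | h
                · exact Or.inl (k1 u v huy hvy h)
                · exact Or.inr (k1 v u hvy huy h)
      by_cases hz : ∃ z ∈ S, z ≠ x ∧ H.Adj y z
      · obtain ⟨z, hzS, hzx, hyz⟩ := hz
        have huniq : ∀ w, w ≠ x → w ∈ S → H.Adj y w → w = z := by
          intro w hwx _ hyw
          rcases hdeg y x w z hxy.symm hyw hyz with h | h | h
          · exact absurd h.symm hwx
          · exact absurd h.symm hzx
          · exact h
        rcases h3 y (Finset.mem_erase.2 ⟨hyx, hyS⟩) z (Finset.mem_erase.2 ⟨hzx, hzS⟩) hyz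
          with h | h
        · obtain ⟨pre, post, hl⟩ := h
          refine ⟨pre ++ x :: y :: z :: post, nodup_insert (hl ▸ h1) (hl ▸ hxl),
            hmem pre (y :: z :: post) hl.symm, step _ ?_ ?_ ?_⟩
          · intro u v hu hv huv
            rw [hl] at huv
            rcases cons2_split hu hv huv with h | h
            · exact cons2_append_right _ h
            · have := cons2_append_left (pre ++ [x, y]) h
              simpa using this
          · exact Or.inl ⟨pre, z :: post, rfl⟩
          · intro w hwx hw hyw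
            rw [huniq w hwx hw hyw]
            exact Or.inl ⟨pre ++ [x], post, by simp⟩
        · obtain ⟨pre, post, hl⟩ := h
          have hl' : l = (pre ++ [z, y]) ++ post := by rw [hl]; simp
          have hl2 : l = (pre ++ [z]) ++ y :: post := by rw [hl]; simp
          refine ⟨(pre ++ [z, y]) ++ x :: post, nodup_insert (hl' ▸ h1) (hl' ▸ hxl),
            hmem (pre ++ [z, y]) post hl'.symm, step _ ?_ ?_ ?_⟩
          · intro u v hu hv huv
            rw [hl2] at huv
            rcases cons2_split hu hv huv with h | h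
            · have := cons2_append_right (y :: x :: post) h
              simpa using this
            · have := cons2_append_left (pre ++ [z, y, x]) h
              simpa using this
          · exact Or.inr ⟨pre ++ [z], post, by simp⟩
          · intro w hwx hw hyw
            rw [huniq w hwx hw hyw]
            exact Or.inr ⟨pre, x :: post, by simp⟩
      · obtain ⟨pre, post, hl⟩ := List.append_of_mem hyl
        refine ⟨pre ++ x :: y :: post, nodup_insert (hl ▸ h1) (hl ▸ hxl),
          hmem pre (y :: post) hl.symm, step _ ?_ ?_ ?_⟩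
        · intro u v hu hv huv
          rw [hl] at huv
          rcases cons2_split hu hv huv with h | h
          · exact cons2_append_right _ h
          · have := cons2_append_left (pre ++ [x, y]) h
            simpa using this
        · exact Or.inl ⟨pre, post, rfl⟩
        · intro w hwx hw hyw
          exact absurd ⟨w, hw, hwx, hyw⟩ hz
    · refine ⟨[] ++ x :: l, nodup_insert (by simpa using h1) (by simpa using hxl),
        hmem [] l rfl, ?_⟩
      intro u hu v hv huv
      have hux : u ≠ x := by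
        rintro rfl
        exact hy ⟨v, hv, huv⟩
      have hvx : v ≠ x := by
        rintro rfl
        exact hy ⟨u, hu, huv.symm⟩
      rcases h3 u (Finset.mem_erase.2 ⟨hux, hu⟩) v (Finset.mem_erase.2 ⟨hvx, hv⟩) huv with h | h
      · exact Or.inl (cons2_append_left [x] h)
      · exact Or.inr (cons2_append_left [x] h)


end

theorem mem_ent_map {V κ : Type} [DecidableEq V] (tri : κ → V × V × V) (L : List κ) (w : V) :
    w ∈ ent (L.map tri) ↔ ∃ i ∈ L, w = (tri i).1 ∨ w = (tri i).2.1 ∨ w = (tri i).2.2 := by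
  unfold ent
  simp only [List.mem_flatMap, List.mem_map]
  constructor
  · rintro ⟨t, ⟨i, hi, rfl⟩, hw⟩
    refine ⟨i, hi, ?_⟩
    simpa using hw
  · rintro ⟨i, hi, hw⟩
    refine ⟨tri i, ⟨i, hi, rfl⟩, ?_⟩
    simpa using hw

theorem nodup_ent_map {V κ : Type} [Fintype V] [DecidableEq V] (b : V → κ) (tri : κ → V × V × V)
    (Q : κ → Prop)
    (hne : ∀ i, Q i → (tri i).1 ≠ (tri i).2.1 ∧ (tri i).1 ≠ (tri i).2.2 ∧
      (tri i).2.1 ≠ (tri i).2.2)
    (hb : ∀ i, Q i → b (tri i).1 = i ∧ b (tri i).2.1 = i ∧ b (tri i).2.2 = i) :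
    ∀ L : List κ, L.Nodup → (∀ i ∈ L, Q i) → (ent (L.map tri)).Nodup
  | [], _, _ => by simp [ent]
  | k :: L, hL, hQ => by
    rw [List.nodup_cons] at hL
    have ih := nodup_ent_map b tri Q hne hb L hL.2
      (fun i hi => hQ i (List.mem_cons_of_mem _ hi))
    have hk := hQ k List.mem_cons_self
    obtain ⟨n1, n2, n3⟩ := hne k hk
    obtain ⟨b1, b2, b3⟩ := hb k hk
    have hout : ∀ w, b w = k → w ∉ ent (L.map tri) := by
      intro w hw hmem
      rw [mem_ent_map] at hmem
      obtain ⟨i, hi, h⟩ := hmem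
      obtain ⟨c1, c2, c3⟩ := hb i (hQ i (List.mem_cons_of_mem _ hi))
      have : b w = i := by
        rcases h with h | h | h
        · rw [h]; exact c1
        · rw [h]; exact c2
        · rw [h]; exact c3
      rw [hw] at this
      exact hL.1 (this ▸ hi)
    rw [List.map_cons, ent_cons, List.nodup_cons, List.nodup_cons, List.nodup_cons,
      List.mem_cons, List.mem_cons, List.mem_cons]
    refine ⟨?_, ?_, hout _ b3, ih⟩
    · rintro (h | h | h)
      · exact n1 h
      · exact n2 h
      · exact hout _ b1 h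
    · rintro (h | h)
      · exact n3 h
      · exact hout _ b2 h

theorem three_inj {V : Type} (f : V → Fin 3) (t : V × V × V)
    (h : f t.1 ≠ f t.2.1 ∧ f t.1 ≠ f t.2.2 ∧ f t.2.1 ≠ f t.2.2) (u v : V)
    (hu : u = t.1 ∨ u = t.2.1 ∨ u = t.2.2) (hv : v = t.1 ∨ v = t.2.1 ∨ v = t.2.2)
    (hf : f u = f v) : u = v := by
  obtain ⟨h1, h2, h3⟩ := h
  rcases hu with hu | hu | hu <;> rcases hv with hv | hv | hv <;> rw [hu, hv] at hf ⊢
  · exact absurd hf h1
  · exact absurd hf h2
  · exact absurd hf.symm h1
  · exact absurd hf h3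
  · exact absurd hf.symm h2
  · exact absurd hf.symm h3

theorem hFSG : StFSG := by
  classical
  intro V κ _ _ _ _ H b S Q hD hL hQ
  obtain hV | hV := isEmpty_or_nonempty V
  · exact ⟨fun _ => 0, fun u => (hV.false u).elim, fun u => (hV.false u).elim⟩
  obtain ⟨l, h1, h2, h3⟩ := order' H hL hD S.card S rfl
  have hch : ∀ i, ∃ t : V × V × V, i ∈ Q → (t.1 ≠ t.2.1 ∧ t.1 ≠ t.2.2 ∧ t.2.1 ≠ t.2.2) ∧
      S.filter (fun v => b v = i) = {t.1, t.2.1, t.2.2} := by
    intro i
    by_cases hi : i ∈ Q
    · obtain ⟨x, y, z, hxy, hxz, hyz, he⟩ := Finset.card_eq_three.1 (hQ i hi)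
      exact ⟨(x, y, z), fun _ => ⟨⟨hxy, hxz, hyz⟩, he⟩⟩
    · obtain ⟨x⟩ := hV
      exact ⟨(x, x, x), fun h => absurd h hi⟩
  choose tri htri using hch
  have hmem : ∀ i ∈ Q, ∀ w, (w = (tri i).1 ∨ w = (tri i).2.1 ∨ w = (tri i).2.2) ↔
      w ∈ S ∧ b w = i := by
    intro i hi w
    have := (htri i hi).2
    rw [← Finset.mem_filter (p := fun v => b v = i), this]
    simp
  have hb : ∀ i, i ∈ Q → b (tri i).1 = i ∧ b (tri i).2.1 = i ∧ b (tri i).2.2 = i := by
    intro i hi
    exact ⟨((hmem i hi _).1 (Or.inl rfl)).2, ((hmem i hi _).1 (Or.inr (Or.inl rfl))).2,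
      ((hmem i hi _).1 (Or.inr (Or.inr rfl))).2⟩
  have hn := nodup_ent_map b tri (fun i => i ∈ Q) (fun i hi => (htri i hi).1) hb Q.toList
    (Finset.nodup_toList Q) (fun i hi => Finset.mem_toList.1 hi)
  have hsub : ∀ x ∈ ent (Q.toList.map tri), x ∈ l := by
    intro x hx
    rw [mem_ent_map] at hx
    obtain ⟨i, hi, h⟩ := hx
    rw [h2]
    exact ((hmem i (Finset.mem_toList.1 hi) x).1 h).1
  obtain ⟨f, hf1, hf2⟩ := path_exists l (Q.toList.map tri) h1 hn hsub
  refine ⟨f, ?_, ?_⟩
  · intro u hu v hv huv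
    rcases h3 u hu v hv huv with h | h
    · exact hf1 u v h
    · exact (hf1 v u h).symm
  · intro u hu v hv huv hQu hfuv
    have hT : tri (b u) ∈ Q.toList.map tri :=
      List.mem_map.2 ⟨b u, Finset.mem_toList.2 hQu, rfl⟩
    obtain ⟨g1, g2, g3⟩ := hf2 _ hT
    have e1 := (hmem (b u) hQu u).2 ⟨hu, rfl⟩
    have e2 := (hmem (b u) hQu v).2 ⟨hv, huv.symm⟩
    exact three_inj f _ ⟨g1, g2, g3⟩ u v e1 e2 hfuv

end Pool.Agent.Helper36.F2
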