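import Pool.Agent.Helper73.F2.St

set_option autoImplicit false

/-! Project F2, module PSH: exchanges along a path -/

namespace Pool.Agent.Helper36.F2

open _root_.F2 Finset

theorem hPSH : StPSH := by
  classical
  intro hXCH hSTP V κ _ _ _ _ G b P j hT hjP s
  rcases s with _ | n
  · intro X x v h; omega
  induction n with
  | zero =>
    intro X x v _ hH hAU _ hend _ hxj _ hmul hz
    have hA0 := (hAU 0 (by omega)).1
    have hb0 : b (v 0) = j := hend
    have hx0j : b (x 0) ≠ j := hxj 0 (by omega)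
    have hne : b (v 0) ≠ b (x 0) := by rw [hb0]; exact hx0j.symm
    obtain ⟨hH', m1, m3, hk⟩ := hSTP hXCH V κ G b X P (x 0) (v 0) hH hA0 hne
    set X' := insert (v 0) (X.erase (x 0)) with hX'
    rw [hb0] at hH' m1
    have hmem : ∀ t, t ∈ X' ↔ t = v 0 ∨ (t ≠ x 0 ∧ t ∈ X) := by
      intro t; rw [hX', Finset.mem_insert, Finset.mem_erase]
    -- members of the block `j` outside `X'`
    have key : ∀ z, b z = j → z ∉ X' → ∃ y ∈ X', Uniq G X' y ∧ Allow G b X' P y z := by
      intro z hzj hzX'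
      rw [hmem] at hzX'
      push Not at hzX'
      have hzx : z ≠ x 0 := by rintro rfl; exact hx0j hzj
      obtain ⟨y, hy, hyA, hyU⟩ := hz z hzj (hzX'.2 hzx)
      have hyx : y ≠ x 0 := by
        rintro rfl
        exact hzX'.1 (hT.2 _ _ _ hyA.2.1 hA0.2.1 (hzj.trans hb0.symm))
      obtain ⟨k1, k2, k3⟩ := hk y hy hyx hyU
      exact ⟨y, k1, k2, (k3 z).1 hyA⟩
    have hmt : ∀ a, Mate b X' (insert j P) a → (b a = j ∧ a ∉ X') ∨ Mate b X' P a := by
      intro a ha
      rcases Finset.mem_insert.1 ha.1 with h | h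
      · exact Or.inl ⟨h, ha.2⟩
      · exact Or.inr ⟨h, ha.2⟩
    refine ⟨X', hH'.min, ?_, ?_, ?_⟩
    · intro i hi
      rcases Finset.mem_insert.1 hi with h | h
      · rw [h, m1, hmul]
      · exact hH'.two i h (fun h' => hjP (h' ▸ h))
    · intro a ha
      rcases hmt a ha with h | h
      · obtain ⟨y, hy, _, hyA⟩ := key a h.1 h.2
        exact ⟨y, hy, hyA.2.1.symm⟩
      · exact hH'.near a h
    · intro a a' ha ha' hr
      have mixed : ∀ a a', b a = j → a ∉ X' → Mate b X' P a' → G.Reachable a a' → False := by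
        intro a a' h1 h2 h3 h4
        obtain ⟨y, hy, _, hyA⟩ := key a h1 h2
        have := hyA.2.2 a' h3 (hyA.2.1.reachable.trans h4)
        rw [this] at h3
        exact hjP (h1 ▸ h3.1)
      rcases hmt a ha with h | h
      · rcases hmt a' ha' with h' | h'
        · obtain ⟨y, hy, hyU, hyA⟩ := key a h.1 h.2
          obtain ⟨y', hy', hyU', hyA'⟩ := key a' h'.1 h'.2
          have e : y' = y := hyU.2 y' hy'
            ((hyA.2.1.reachable.trans hr).trans hyA'.2.1.symm.reachable)
          rw [e] at hyA'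
          exact hT.2 _ _ _ hyA.2.1 hyA'.2.1 (h.1.trans h'.1.symm)
        · exact (mixed a a' h.1 h.2 h' hr).elim
      · rcases hmt a' ha' with h' | h'
        · exact (mixed a' a h'.1 h'.2 h hr.symm).elim
        · exact hH'.sep a a' h h' hr
  | succ n ih =>
    intro X x v _ hH hAU hvx hend hinj hxj hsc hmul hz
    have hA0 := (hAU 0 (by omega)).1
    have hb0 : b (v 0) = b (x 1) := hvx 0 (by omega)
    have hne : b (v 0) ≠ b (x 0) := by
      rw [hb0]
      intro h
      have := hinj 1 (by omega) 0 (by omega) h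
      omega
    obtain ⟨hH', m1, m3, hk⟩ := hSTP hXCH V κ G b X P (x 0) (v 0) hH hA0 hne
    set X' := insert (v 0) (X.erase (x 0)) with hX'
    have hmem : ∀ t, t ∈ X' ↔ t = v 0 ∨ (t ≠ x 0 ∧ t ∈ X) := by
      intro t; rw [hX', Finset.mem_insert, Finset.mem_erase]
    have hx0 : ∀ i, i + 1 < n + 1 + 1 → x (i + 1) ≠ x 0 := by
      intro i hi h
      have := hinj (i + 1) hi 0 (by omega) (by rw [h])
      omega
    have hx1j : b (x 1) ≠ j := hxj 1 (by omega)
    apply ih X' (fun i => x (i + 1)) (fun i => v (i + 1)) (by omega)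
    · change Hot G b X' P (b (x 1))
      rw [← hb0]
      exact hH'
    · intro i hi
      obtain ⟨a1, a2⟩ := hAU (i + 1) (by omega)
      obtain ⟨k1, k2, k3⟩ := hk (x (i + 1)) a1.1 (hx0 i (by omega)) a2
      exact ⟨(k3 _).1 a1, k2⟩
    · intro i hi
      exact hvx (i + 1) (by omega)
    · exact hend
    · intro i hi k hk' h
      have := hinj (i + 1) (by omega) (k + 1) (by omega) h
      omega
    · intro i hi
      exact hxj (i + 1) (by omega)
    · intro i hi z hzj hA
      obtain ⟨a1, a2⟩ := hAU (i + 1) (by omega)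
      obtain ⟨k1, k2, k3⟩ := hk (x (i + 1)) a1.1 (hx0 i (by omega)) a2
      exact hsc (i + 1) (by omega) z hzj ((k3 z).2 hA)
    · rw [m3 j (hxj 0 (by omega)).symm (by rw [hb0]; exact hx1j.symm)]
      exact hmul
    · intro z hzj hzX'
      rw [hmem] at hzX'
      push Not at hzX'
      have hzx : z ≠ x 0 := by rintro rfl; exact hxj 0 (by omega) hzj
      obtain ⟨y, hy, hyA, hyU⟩ := hz z hzj (hzX'.2 hzx)
      have hyx : y ≠ x 0 := by
        rintro rfl
        exact hsc 0 (by omega) z hzj hyA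
      obtain ⟨k1, k2, k3⟩ := hk y hy hyx hyU
      exact ⟨y, k1, (k3 z).1 hyA, k2⟩

end Pool.Agent.Helper36.F2
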