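import Pool.Agent.Helper73.F2.St

set_option autoImplicit false

/-! Project F2, module STP: one exchange step -/

namespace Pool.Agent.Helper36.F2

open _root_.F2 Finset

section
variable {V κ : Type} [Fintype V] [DecidableEq V] [Fintype κ] [DecidableEq κ]

theorem mul_insert_erase_other (b : V → κ) (X : Finset V) (x v : V) (i : κ)
    (h1 : i ≠ b x) (h2 : i ≠ b v) : mul b (insert v (X.erase x)) i = mul b X i := by
  unfold mul
  congr 1
  ext t
  rw [Finset.mem_filter, Finset.mem_filter, Finset.mem_insert, Finset.mem_erase]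
  constructor
  · rintro ⟨h | h, h'⟩
    · rw [h] at h'; exact absurd h'.symm h2
    · exact ⟨h.2, h'⟩
  · rintro ⟨h, h'⟩
    refine ⟨Or.inr ⟨?_, h⟩, h'⟩
    rintro rfl
    exact h1 h'.symm

theorem mul_insert_erase_new (b : V → κ) (X : Finset V) (x v : V) (hv : v ∉ X)
    (h : b v ≠ b x) : mul b (insert v (X.erase x)) (b v) = mul b X (b v) + 1 := by
  unfold mul
  have : (insert v (X.erase x)).filter (fun t => b t = b v) =
      insert v (X.filter (fun t => b t = b v)) := by
    ext t
    rw [Finset.mem_filter, Finset.mem_insert, Finset.mem_insert, Finset.mem_erase,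
      Finset.mem_filter]
    constructor
    · rintro ⟨h1 | h1, h'⟩
      · exact Or.inl h1
      · exact Or.inr ⟨h1.2, h'⟩
    · rintro (h1 | ⟨h1, h'⟩)
      · rw [h1]; exact ⟨Or.inl rfl, rfl⟩
      · refine ⟨Or.inr ⟨?_, h1⟩, h'⟩
        rintro rfl
        exact h h'.symm
  rw [this, Finset.card_insert_of_notMem]
  intro h1
  exact hv (Finset.mem_filter.1 h1).1

theorem mul_insert_erase_old (b : V → κ) (X : Finset V) (x v : V) (hx : x ∈ X)
    (h : b v ≠ b x) : mul b (insert v (X.erase x)) (b x) + 1 = mul b X (b x) := by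
  unfold mul
  have h0 : x ∈ X.filter (fun t => b t = b x) := Finset.mem_filter.2 ⟨hx, rfl⟩
  have : (insert v (X.erase x)).filter (fun t => b t = b x) =
      (X.filter (fun t => b t = b x)).erase x := by
    ext t
    rw [Finset.mem_filter, Finset.mem_insert, Finset.mem_erase, Finset.mem_erase,
      Finset.mem_filter]
    constructor
    · rintro ⟨h1 | h1, h'⟩
      · rw [h1] at h'; exact absurd h' h
      · exact ⟨h1.1, h1.2, h'⟩
    · rintro ⟨h1, h2, h3⟩
      exact ⟨Or.inr ⟨h1, h2⟩, h3⟩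
  rw [this, Finset.card_erase_of_mem h0]
  have := Finset.card_pos.2 ⟨x, h0⟩
  omega

end

theorem hSTP : StSTP := by
  classical
  intro hXCH V κ _ _ _ _ G b X P x v hH hA hne
  obtain ⟨hx, hxv, hAl⟩ := hA
  have hmin := hH.min
  have hm2 : 2 ≤ mul b X (b x) := by
    by_cases h : b x ∈ P
    · have := hH.cur2 h; omega
    · exact hH.cur1 h
  obtain ⟨hU, hMG⟩ := hXCH V κ G b X hmin x hx hm2
  have hvX : v ∉ X := fun h => hmin.1.indep x hx v h hxv
  have hvx : v ≠ x := fun h => hvX (h ▸ hx)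
  have m1 := mul_insert_erase_new b X x v hvX hne
  have m2 := mul_insert_erase_old b X x v hx hne
  have m3 : ∀ i, i ≠ b x → i ≠ b v → mul b (insert v (X.erase x)) i = mul b X i :=
    fun i h1 h2 => mul_insert_erase_other b X x v i h1 h2
  -- mates
  have hmate : ∀ a, Mate b (insert v (X.erase x)) P a →
      (a = x ∧ b x ∈ P) ∨ (Mate b X P a ∧ a ≠ v) := by
    intro a ha
    obtain ⟨h1, h2⟩ := ha
    rw [Finset.mem_insert, Finset.mem_erase] at h2
    push Not at h2
    by_cases h3 : a = x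
    · left; subst h3; exact ⟨rfl, h1⟩
    · right; exact ⟨⟨h1, h2.2 h3⟩, h2.1⟩
  have hmate' : ∀ a, Mate b X P a → a ≠ v → Mate b (insert v (X.erase x)) P a := by
    intro a ha hav
    refine ⟨ha.1, ?_⟩
    rw [Finset.mem_insert, Finset.mem_erase]
    rintro (h | h)
    · exact hav h
    · exact ha.2 h.2
  refine ⟨⟨hMG v hxv.reachable, ?_, ?_, ?_, ?_, ?_⟩, m1, m3, ?_⟩
  · -- two
    intro i hi hib
    by_cases hix : i = b x
    · rw [hix]
      have := hH.cur2 (hix ▸ hi)
      omega
    · rw [m3 i hix hib]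
      exact hH.two i hi hix
  · -- cur1
    intro h
    obtain ⟨z, hz, hzb⟩ := hmin.1.hit (b v)
    have : 0 < mul b X (b v) := Finset.card_pos.2 ⟨z, Finset.mem_filter.2 ⟨hz, hzb⟩⟩
    omega
  · -- cur2
    intro h
    have := hH.two (b v) h hne
    omega
  · -- near
    intro a ha
    rcases hmate a ha with ⟨h1, _⟩ | ⟨h1, h2⟩
    · exact ⟨v, Finset.mem_insert_self _ _, h1 ▸ hxv⟩
    · obtain ⟨w, hw, haw⟩ := hH.near a h1
      refine ⟨w, ?_, haw⟩
      rw [Finset.mem_insert, Finset.mem_erase]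
      right
      refine ⟨?_, hw⟩
      rintro rfl
      exact h2 (hAl a h1 haw.symm.reachable)
  · -- sep
    intro a a' ha ha' hr
    rcases hmate a ha with ⟨h1, _⟩ | ⟨h1, h2⟩
    · rcases hmate a' ha' with ⟨h1', _⟩ | ⟨h1', h2'⟩
      · rw [h1, h1']
      · exfalso
        rw [h1] at hr
        exact h2' (hAl a' h1' hr)
    · rcases hmate a' ha' with ⟨h1', _⟩ | ⟨h1', h2'⟩
      · exfalso
        rw [h1'] at hr
        exact h2 (hAl a h1 hr.symm)
      · exact hH.sep a a' h1 h1' hr
  · -- second part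
    intro y hy hyx hUy
    have nx : ¬ G.Reachable y x := fun h => hyx ((hUy.2 x hx h).symm)
    have nv : ¬ G.Reachable y v := fun h => nx (h.trans hxv.symm.reachable)
    refine ⟨Finset.mem_insert_of_mem (Finset.mem_erase.2 ⟨hyx, hy⟩), ⟨hUy.1, ?_⟩, ?_⟩
    · intro z hz hr
      rw [Finset.mem_insert, Finset.mem_erase] at hz
      rcases hz with h | h
      · rw [h] at hr; exact absurd hr nv
      · exact hUy.2 z h.2 hr
    · intro z
      constructor
      · rintro ⟨h1, h2, h3⟩
        refine ⟨Finset.mem_insert_of_mem (Finset.mem_erase.2 ⟨hyx, hy⟩), h2, ?_⟩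
        intro a ha hr
        rcases hmate a ha with ⟨h4, _⟩ | ⟨h4, _⟩
        · rw [h4] at hr; exact absurd hr nx
        · exact h3 a h4 hr
      · rintro ⟨h1, h2, h3⟩
        refine ⟨hy, h2, ?_⟩
        intro a ha hr
        apply h3 a (hmate' a ha _) hr
        rintro rfl
        exact nv hr

end Pool.Agent.Helper36.F2
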